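import Mathlib

set_option autoImplicit false

open MeasureTheory Metric
open scoped RealInnerProductSpace

namespace Pool.Agent.Results.MP_093203_gt.NotBall

section Defs

variable {V : Type*} [NormedAddCommGroup V] [InnerProductSpace ℝ V]

/-- A convex body: a compact convex set with nonempty interior. -/
def IsConvexBody (K : Set V) : Prop :=
  Convex ℝ K ∧ IsCompact K ∧ (interior K).Nonempty

/-- The symmetry group of a set `A`: all isometries `T` of the whole space with `T A = A`. -/
def symGroup (A : Set V) : Subgroup (V ≃ᵢ V) where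
  carrier := {T | T '' A = A}
  one_mem' := by simp
  mul_mem' := by
    intro S T hS hT
    simp only [Set.mem_ofPred_eq] at hS hT ⊢
    rw [IsometryEquiv.coe_mul, Set.image_comp, hT, hS]
  inv_mem' := by
    intro S hS
    simp only [Set.mem_ofPred_eq] at hS ⊢
    conv_lhs => rw [← hS]
    rw [← Set.image_comp]
    have : (⇑S⁻¹ ∘ ⇑S) = id := by
      funext x
      exact S.symm_apply_apply x
    rw [this, Set.image_id]

/-- An ellipsoid: the image of the closed unit ball under an invertible affine map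
`x ↦ T x + c`. -/
def IsEllipsoid (E : Set V) : Prop :=
  ∃ (T : V ≃ₗ[ℝ] V) (c : V), E = (fun x => T x + c) '' closedBall (0 : V) 1

/-- A group of isometries is complete if every ellipsoid whose symmetry group contains it is a
Euclidean ball. -/
def IsCompleteGroup (G : Subgroup (V ≃ᵢ V)) : Prop :=
  ∀ E : Set V, IsEllipsoid E → G ≤ symGroup E → ∃ (c : V) (r : ℝ), 0 < r ∧ E = closedBall c r

variable [FiniteDimensional ℝ V] [MeasurableSpace V] [BorelSpace V]

/-- The centroid of a set: the average of its points with respect to Lebesgue measure. -/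
noncomputable def centroid (A : Set V) : V := ⨍ x in A, x ∂(volume : Measure V)

/-- Completely symmetric sets: the centroid is the origin and the symmetry group is complete. -/
def IsCompletelySymmetric (A : Set V) : Prop :=
  centroid A = 0 ∧ IsCompleteGroup (symGroup A)

/-- `B` is a translate `A + v` of a completely symmetric set `A`, where moreover `A` is a convex
body. -/
def IsTranslateOfCSBody (B : Set V) : Prop :=
  ∃ (A : Set V) (v : V), IsConvexBody A ∧ IsCompletelySymmetric A ∧ B = (fun x => x + v) '' A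

end Defs

/-- The hyperplane `uᗮ` of all vectors orthogonal to `u`. -/
noncomputable def hyperplane {V : Type*} [NormedAddCommGroup V] [InnerProductSpace ℝ V] (u : V) :
    Submodule ℝ V := (ℝ ∙ u)ᗮ

/-- The orthogonal projection of `K` onto the hyperplane `uᗮ`, as a subset of that hyperplane. -/
noncomputable def proj {V : Type*} [NormedAddCommGroup V] [InnerProductSpace ℝ V]
    [FiniteDimensional ℝ V] (K : Set V) (u : V) : Set (hyperplane u) :=
  (fun x => (hyperplane u).orthogonalProjectionOnto x) '' K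

/-- Every orthogonal projection of `K` onto a hyperplane `uᗮ`, `u` a unit vector, is a translate of
a completely symmetric convex body. -/
def AllProjectionsCS {V : Type*} [NormedAddCommGroup V] [InnerProductSpace ℝ V]
    [FiniteDimensional ℝ V] [MeasurableSpace V] [BorelSpace V] (K : Set V) : Prop :=
  ∀ u : V, ‖u‖ = 1 → IsTranslateOfCSBody (proj K u)

/-- `K` is a Euclidean ball. -/
def IsBall {V : Type*} [NormedAddCommGroup V] (K : Set V) : Prop :=
  ∃ (c : V) (r : ℝ), K = closedBall c r

section Plane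

variable {V : Type*} [NormedAddCommGroup V] [InnerProductSpace ℝ V]

/-- If a bounded set is symmetric about `c` and about `d` then `c = d`. -/
theorem center_unique (E : Set V) (hE : IsCompact E) (hne : E.Nonempty) (c d : V)
    (hc : ∀ y ∈ E, 2 • c - y ∈ E) (hd : ∀ y ∈ E, 2 • d - y ∈ E) : c = d := by
  obtain ⟨y, hy, hmax⟩ := hE.exists_isMaxOn hne
    (f := fun y => ⟪y, d - c⟫) (by fun_prop)
  have h1 : y + 2 • (d - c) ∈ E := by
    have := hd _ (hc y hy)
    have h2 : 2 • d - (2 • c - y) = y + 2 • (d - c) := by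
      simp only [two_nsmul]; abel
    rwa [h2] at this
  have h3 := hmax h1
  simp only [Set.mem_ofPred_eq] at h3
  rw [inner_add_left, two_nsmul, inner_add_left, real_inner_self_eq_norm_sq] at h3
  have h4 : ‖d - c‖ ^ 2 ≤ 0 := by linarith
  have h5 : ‖d - c‖ = 0 := by
    have := sq_nonneg ‖d - c‖
    exact pow_eq_zero_iff (two_ne_zero) |>.mp (le_antisymm h4 this)
  rw [norm_eq_zero, sub_eq_zero] at h5
  exact h5.symm

variable [Fact (Module.finrank ℝ V = 2)] (o : Orientation ℝ V (Fin 2))

/-- rotation by 120 degrees -/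
noncomputable def rho : V ≃ₗᵢ[ℝ] V := o.rotation ((2 * Real.pi / 3 : ℝ) : Real.Angle)

theorem cos_two_pi_div_three : Real.cos (2 * Real.pi / 3) = -(1 / 2) := by
  have : 2 * Real.pi / 3 = Real.pi - Real.pi / 3 := by ring
  rw [this, Real.cos_pi_sub, Real.cos_pi_div_three]

theorem sin_two_pi_div_three : Real.sin (2 * Real.pi / 3) = Real.sqrt 3 / 2 := by
  have : 2 * Real.pi / 3 = Real.pi - Real.pi / 3 := by ring
  rw [this, Real.sin_pi_sub, Real.sin_pi_div_three]

theorem rho_apply (x : V) :
    rho o x = (-(1 / 2) : ℝ) • x + (Real.sqrt 3 / 2 : ℝ) • o.rightAngleRotation x := by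
  unfold rho
  rw [o.rotation_apply, Real.Angle.cos_coe, Real.Angle.sin_coe, cos_two_pi_div_three,
    sin_two_pi_div_three]

theorem sqrt3_sq : Real.sqrt 3 * Real.sqrt 3 = 3 := Real.mul_self_sqrt (by norm_num)

theorem rho_rho (x : V) : rho o (rho o x) = -x - rho o x := by
  rw [rho_apply o (rho o x), rho_apply o x]
  simp only [map_add, map_smul, Orientation.rightAngleRotation_rightAngleRotation, smul_add,
    smul_smul, smul_neg]
  have h := sqrt3_sq
  have : Real.sqrt 3 / 2 * (Real.sqrt 3 / 2) = 3 / 4 := by linarith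
  rw [this]
  module

theorem rho_fixed {x : V} (h : rho o x = x) : x = 0 := by
  have h1 := rho_rho o x
  rw [h, h] at h1
  have h2 : (3 : ℝ) • x = 0 := by
    have : (3 : ℝ) • x = x - (-x - x) := by module
    rw [this, ← h1, sub_self]
  rcases smul_eq_zero.mp h2 with h3 | h3
  · norm_num at h3
  · exact h3

/-- completeness of any group of isometries containing the rotation by 120 degrees -/
theorem complete_of_rho_mem (G : Subgroup (V ≃ᵢ V)) (hG : (rho o).toIsometryEquiv ∈ G) :
    IsCompleteGroup G := by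
  intro E hE hGE
  have : FiniteDimensional ℝ V := Module.finite_of_finrank_eq_succ (Fact.out : Module.finrank ℝ V = 2)
  have hr : (rho o) '' E = E := hGE hG
  obtain ⟨T, c, rfl⟩ := hE
  set E : Set V := (fun x => T x + c) '' closedBall (0 : V) 1 with hEdef
  -- membership
  have hmem : ∀ y, y ∈ E ↔ ‖T.symm (y - c)‖ ≤ 1 := by
    intro y
    constructor
    · rintro ⟨x, hx, rfl⟩
      simpa using hx
    · intro hy
      exact ⟨T.symm (y - c), by simpa using hy, by simp⟩
  have hcont : Continuous (fun x => T x + c) :=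
    (T.toLinearMap.continuous_of_finiteDimensional).add continuous_const
  have hcomp : IsCompact E := by
    have : ProperSpace V := FiniteDimensional.proper_real V
    exact (isCompact_closedBall _ _).image hcont
  have hcE : c ∈ E := by rw [hmem]; simp
  have hrc : rho o c = c := by
    apply center_unique E hcomp ⟨c, hcE⟩
    · intro y hy
      rw [← hr] at hy
      obtain ⟨x, hx, rfl⟩ := hy
      rw [← hr]
      refine ⟨2 • c - x, ?_, by simp⟩
      rw [hmem] at hx ⊢
      have : 2 • c - x - c = -(x - c) := by rw [two_nsmul]; abel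
      rw [this, map_neg, norm_neg]
      exact hx
    · intro y hy
      rw [hmem] at hy ⊢
      have : 2 • c - y - c = -(y - c) := by rw [two_nsmul]; abel
      rw [this, map_neg, norm_neg]
      exact hy
  have hc0 : c = 0 := rho_fixed o hrc
  subst hc0
  have hmem' : ∀ y, y ∈ E ↔ ‖T.symm y‖ ≤ 1 := by
    intro y; rw [hmem]; simp
  -- invariance of the norm
  have hle : ∀ y, ‖T.symm y‖ ≤ 1 → ‖T.symm (rho o y)‖ ≤ 1 := by
    intro y hy
    rw [← hmem'] at hy ⊢
    rw [← hr]
    exact ⟨y, hy, rfl⟩
  have hge : ∀ y, ‖T.symm (rho o y)‖ ≤ 1 → ‖T.symm y‖ ≤ 1 := by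
    intro y hy
    rw [← hmem'] at hy ⊢
    rw [← hr] at hy
    obtain ⟨x, hx, hxy⟩ := hy
    have : x = y := (rho o).injective hxy
    rwa [← this]
  have hscale : ∀ (f g : V →ₗ[ℝ] V), (∀ y, ‖f y‖ ≤ 1 → ‖g y‖ ≤ 1) → ∀ y, ‖g y‖ ≤ ‖f y‖ := by
    intro f g h y
    by_contra hlt
    push Not at hlt
    have hgpos : 0 < ‖g y‖ := lt_of_le_of_lt (norm_nonneg _) hlt
    -- choose s between
    obtain ⟨s, hs1, hs2⟩ := exists_between hlt
    have hspos : 0 < s := lt_of_le_of_lt (norm_nonneg _) hs1
    have h1 : ‖f (s⁻¹ • y)‖ ≤ 1 := by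
      rw [map_smul, norm_smul, Real.norm_of_nonneg (inv_nonneg.mpr hspos.le), inv_mul_le_iff₀ hspos]
      linarith
    have h2 := h _ h1
    rw [map_smul, norm_smul, Real.norm_of_nonneg (inv_nonneg.mpr hspos.le), inv_mul_le_iff₀ hspos]
      at h2
    linarith
  have hinv : ∀ y, ‖T.symm (rho o y)‖ = ‖T.symm y‖ := by
    intro y
    apply le_antisymm
    · exact hscale T.symm.toLinearMap (T.symm.toLinearMap ∘ₗ (rho o).toLinearEquiv.toLinearMap)
        (fun y hy => hle y hy) y
    · exact hscale (T.symm.toLinearMap ∘ₗ (rho o).toLinearEquiv.toLinearMap) T.symm.toLinearMap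
        (fun y hy => hge y hy) y
  -- pick a nonzero vector
  have : Nontrivial V := Module.nontrivial_of_finrank_pos (R := ℝ)
    (by rw [(Fact.out : Module.finrank ℝ V = 2)]; norm_num)
  obtain ⟨x, hx⟩ := exists_ne (0 : V)
  have hSx : T.symm x ≠ 0 := by simpa using hx
  set p : V := T.symm x with hp
  set q : V := T.symm (o.rightAngleRotation x) with hq
  have e1 : T.symm (rho o x) = (-(1 / 2) : ℝ) • p + (Real.sqrt 3 / 2 : ℝ) • q := by
    rw [rho_apply, map_add, map_smul, map_smul]
  have e2 : T.symm (rho o (rho o x)) = (-(1 / 2) : ℝ) • p - (Real.sqrt 3 / 2 : ℝ) • q := by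
    rw [rho_rho, map_sub, map_neg, e1, ← hp]
    module
  have n1 : ‖(-(1 / 2) : ℝ) • p + (Real.sqrt 3 / 2 : ℝ) • q‖ ^ 2 = ‖p‖ ^ 2 := by
    rw [← e1, hinv]
  have n2 : ‖(-(1 / 2) : ℝ) • p - (Real.sqrt 3 / 2 : ℝ) • q‖ ^ 2 = ‖p‖ ^ 2 := by
    rw [← e2, hinv, hinv]
  rw [norm_add_sq_real, norm_smul, norm_smul, inner_smul_left, inner_smul_right, mul_pow, mul_pow,
    Real.norm_eq_abs, Real.norm_eq_abs, sq_abs, sq_abs] at n1
  rw [norm_sub_sq_real, norm_smul, norm_smul, inner_smul_left, inner_smul_right, mul_pow, mul_pow,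
    Real.norm_eq_abs, Real.norm_eq_abs, sq_abs, sq_abs] at n2
  have h3 := sqrt3_sq
  have h3' : (Real.sqrt 3 / 2) ^ 2 = 3 / 4 := by
    rw [div_pow, sq, h3]; norm_num
  rw [h3'] at n1 n2
  have hs3 : Real.sqrt 3 ≠ 0 := by
    intro h; rw [h] at h3; norm_num at h3
  have hpq : ⟪p, q⟫ = 0 := by
    have : Real.sqrt 3 * ⟪p, q⟫ = 0 := by
      simp only [RCLike.conj_to_real] at n1 n2
      linarith
    rcases mul_eq_zero.mp this with h | h
    · exact absurd h hs3
    · exact h
  have hqn : ‖q‖ ^ 2 = ‖p‖ ^ 2 := by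
    rw [hpq] at n1
    simp only [RCLike.conj_to_real] at n1
    linarith
  have key : ∀ y, ‖T.symm y‖ ^ 2 * ‖x‖ ^ 2 = ‖y‖ ^ 2 * ‖p‖ ^ 2 := by
    intro y
    have hb := (o.basisRightAngleRotation x hx).sum_repr y
    rw [Fin.sum_univ_two] at hb
    simp only [Orientation.coe_basisRightAngleRotation, Matrix.cons_val_zero,
      Matrix.cons_val_one] at hb
    set α := (o.basisRightAngleRotation x hx).repr y 0
    set β := (o.basisRightAngleRotation x hx).repr y 1
    rw [← hb, map_add, map_smul, map_smul, ← hp, ← hq]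
    rw [norm_add_sq_real, norm_add_sq_real, norm_smul, norm_smul, norm_smul, norm_smul,
      inner_smul_left, inner_smul_right, inner_smul_left, inner_smul_right, hpq,
      mul_pow, mul_pow, mul_pow, mul_pow, Real.norm_eq_abs, Real.norm_eq_abs, sq_abs, sq_abs,
      hqn, LinearIsometryEquiv.norm_map]
    have : ⟪x, o.rightAngleRotation x⟫ = 0 := by simp
    rw [this]
    simp only [RCLike.conj_to_real]
    ring
  have hxn : 0 < ‖x‖ := norm_pos_iff.mpr hx
  have hpn : 0 < ‖p‖ := norm_pos_iff.mpr hSx
  refine ⟨0, ‖x‖ / ‖p‖, by positivity, ?_⟩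
  ext y
  rw [hmem', mem_closedBall_zero_iff, le_div_iff₀ hpn]
  have hk := key y
  rw [← mul_pow, ← mul_pow] at hk
  have hk' : ‖T.symm y‖ * ‖x‖ = ‖y‖ * ‖p‖ := by
    have := abs_eq_abs.mpr (sq_eq_sq_iff_eq_or_eq_neg.mp hk)
    rwa [abs_of_nonneg (by positivity), abs_of_nonneg (by positivity)] at this
  rw [← hk']
  constructor
  · intro h
    exact mul_le_of_le_one_left hxn.le h
  · intro h
    exact (mul_le_iff_le_one_left hxn).mp h

variable [MeasurableSpace V] [BorelSpace V] [FiniteDimensional ℝ V]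

theorem centroid_of_rho (A : Set V) (hA : (rho o) '' A = A) : centroid A = 0 := by
  apply rho_fixed o
  unfold centroid
  rw [setAverage_eq, map_smul]
  congr 1
  have hmp : MeasurePreserving (rho o) (volume : Measure V) volume :=
    (rho o).measurePreserving
  have hme : MeasurableEmbedding (rho o) := (rho o).toHomeomorph.measurableEmbedding
  have h1 : ∫ x in A, (rho o) x ∂(volume : Measure V) = ∫ x in A, x ∂(volume : Measure V) := by
    conv_rhs => rw [← hA]
    exact (hmp.setIntegral_image_emb hme (fun x => x) A).symm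
  have h2 := ((rho o).toContinuousLinearEquiv.integral_comp_comm
    (μ := (volume : Measure V).restrict A) (fun x => x))
  exact h2.symm.trans h1

theorem completelySymmetric_of_rho (A : Set V) (hA : (rho o) '' A = A) :
    IsCompletelySymmetric A :=
  ⟨centroid_of_rho o A hA, complete_of_rho_mem o _ hA⟩

end Plane

section Body

variable {E : Type*} [NormedAddCommGroup E] [InnerProductSpace ℝ E]

/-- the support function -/
noncomputable def hfun (e x : E) : ℝ := ‖x‖ + (1 / 8) * (⟪e, x⟫ ^ 3 / ‖x‖ ^ 2)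

/-- the body -/
def body (e : E) : Set E := {x | ∀ v, ⟪x, v⟫ ≤ hfun e v}

theorem hfun_zero (e : E) : hfun e 0 = 0 := by simp [hfun]

theorem hfun_smul (e : E) (c : ℝ) (hc : 0 < c) (x : E) : hfun e (c • x) = c * hfun e x := by
  unfold hfun
  rw [norm_smul, inner_smul_right, Real.norm_of_nonneg hc.le]
  by_cases hx : ‖x‖ = 0
  · rw [hx]; simp
  · field_simp

theorem abs_cubic_le (e x : E) (he : ‖e‖ = 1) : |⟪e, x⟫ ^ 3 / ‖x‖ ^ 2| ≤ ‖x‖ := by
  by_cases hx : ‖x‖ = 0
  · rw [hx]; simp
  · have hxp : 0 < ‖x‖ := lt_of_le_of_ne (norm_nonneg _) (Ne.symm hx)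
    rw [abs_div, abs_pow, abs_of_nonneg (by positivity : (0:ℝ) ≤ ‖x‖ ^ 2), div_le_iff₀ (by positivity)]
    have h1 : |⟪e, x⟫| ≤ ‖x‖ := by
      have := abs_real_inner_le_norm e x
      rwa [he, one_mul] at this
    calc |⟪e, x⟫| ^ 3 ≤ ‖x‖ ^ 3 := pow_le_pow_left₀ (abs_nonneg _) h1 3
      _ = ‖x‖ * ‖x‖ ^ 2 := by ring

theorem hfun_ge (e x : E) (he : ‖e‖ = 1) : (7 / 8) * ‖x‖ ≤ hfun e x := by
  have := abs_le.mp (abs_cubic_le e x he)
  unfold hfun
  linarith [this.1]

theorem hfun_le (e x : E) (he : ‖e‖ = 1) : hfun e x ≤ (9 / 8) * ‖x‖ := by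
  have := abs_le.mp (abs_cubic_le e x he)
  unfold hfun
  linarith [this.2]

/-- the touching point in the direction of the unit vector `v` -/
noncomputable def touch (e v : E) : E :=
  (1 - (1 / 4) * ⟪e, v⟫ ^ 3) • v + ((3 / 8) * ⟪e, v⟫ ^ 2) • e

theorem key_ineq (a b c : ℝ) (ha : |a| ≤ 1) (hb : |b| ≤ 1) (hc : c ≤ 1)
    (hab : (b - a) ^ 2 ≤ 2 - 2 * c) :
    (1 - (1 / 4) * a ^ 3) * c + ((3 / 8) * a ^ 2) * b ≤ 1 + (1 / 8) * b ^ 3 := by
  obtain ⟨ha1, ha2⟩ := abs_le.mp ha
  obtain ⟨hb1, hb2⟩ := abs_le.mp hb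
  have h1 : (b - a) ^ 2 * (-(b + 2 * a)) ≤ 3 * (2 - 2 * c) := by
    have : (b - a) ^ 2 * (-(b + 2 * a)) ≤ (b - a) ^ 2 * 3 :=
      mul_le_mul_of_nonneg_left (by linarith) (sq_nonneg _)
    linarith
  have h2 : a ^ 3 ≤ 1 := by
    have : a ^ 3 ≤ |a| ^ 3 := by rw [← abs_pow]; exact le_abs_self _
    have h3 : |a| ^ 3 ≤ 1 := pow_le_one₀ (abs_nonneg _) ha
    linarith
  have h3 : 2 * a ^ 3 * (1 - c) ≤ 2 * (1 - c) := by
    have : 0 ≤ 1 - c := by linarith
    nlinarith
  have h4 : 3 * a ^ 2 * b - 2 * a ^ 3 * c - b ^ 3 =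
      (b - a) ^ 2 * (-(b + 2 * a)) + 2 * a ^ 3 * (1 - c) := by ring
  linarith

theorem touch_inner_le_unit (e v w : E) (he : ‖e‖ = 1) (hv : ‖v‖ = 1) (hw : ‖w‖ = 1) :
    ⟪touch e v, w⟫ ≤ hfun e w := by
  unfold touch hfun
  rw [inner_add_left, inner_smul_left, inner_smul_left, hw]
  simp only [RCLike.conj_to_real, one_pow, div_one]
  apply key_ineq
  · have := abs_real_inner_le_norm e v
    rwa [he, hv, one_mul] at this
  · have := abs_real_inner_le_norm e w
    rwa [he, hw, one_mul] at this
  · have := real_inner_le_norm v w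
    rwa [hv, hw, one_mul] at this
  · have h1 : ⟪e, w⟫ - ⟪e, v⟫ = ⟪e, w - v⟫ := by rw [inner_sub_right]
    have h2 := abs_real_inner_le_norm e (w - v)
    rw [he, one_mul] at h2
    have h3 : ‖w - v‖ ^ 2 = 2 - 2 * ⟪v, w⟫ := by
      rw [norm_sub_sq_real, hw, hv, real_inner_comm]
      ring
    rw [h1, ← h3, ← sq_abs]
    exact pow_le_pow_left₀ (abs_nonneg _) h2 2

theorem touch_mem (e v : E) (he : ‖e‖ = 1) (hv : ‖v‖ = 1) : touch e v ∈ body e := by
  intro w
  by_cases hw : w = 0
  · subst hw
    rw [inner_zero_right, hfun_zero]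
  · have hwp : 0 < ‖w‖ := norm_pos_iff.mpr hw
    have hw' : w = ‖w‖ • (‖w‖⁻¹ • w) := by
      rw [smul_smul, mul_inv_cancel₀ hwp.ne', one_smul]
    have hn : ‖‖w‖⁻¹ • w‖ = 1 := by
      rw [norm_smul, norm_inv, norm_norm, inv_mul_cancel₀ hwp.ne']
    rw [hw', hfun_smul e _ hwp, inner_smul_right]
    exact mul_le_mul_of_nonneg_left (touch_inner_le_unit e v _ he hv hn) hwp.le

theorem touch_inner_self (e v : E) (hv : ‖v‖ = 1) : ⟪touch e v, v⟫ = hfun e v := by
  unfold touch hfun
  rw [inner_add_left, inner_smul_left, inner_smul_left, hv, real_inner_self_eq_norm_sq, hv]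
  simp only [RCLike.conj_to_real, one_pow, div_one]
  ring

theorem hfun_add (e : E) (he : ‖e‖ = 1) (v w : E) : hfun e (v + w) ≤ hfun e v + hfun e w := by
  by_cases h : v + w = 0
  · rw [h, hfun_zero]
    have h1 := hfun_ge e v he
    have h2 := hfun_ge e w he
    have := norm_nonneg v
    have := norm_nonneg w
    linarith
  · have hp : 0 < ‖v + w‖ := norm_pos_iff.mpr h
    set u := ‖v + w‖⁻¹ • (v + w) with hu
    have hw' : v + w = ‖v + w‖ • u := by
      rw [hu, smul_smul, mul_inv_cancel₀ hp.ne', one_smul]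
    have hn : ‖u‖ = 1 := by
      rw [hu, norm_smul, norm_inv, norm_norm, inv_mul_cancel₀ hp.ne']
    have h1 : hfun e (v + w) = ⟪touch e u, v + w⟫ := by
      rw [hw', hfun_smul e _ hp, inner_smul_right, touch_inner_self e u hn]
    rw [h1, inner_add_right]
    exact add_le_add (touch_mem e u he hn v) (touch_mem e u he hn w)

variable [FiniteDimensional ℝ E]

theorem body_convexBody (e : E) (he : ‖e‖ = 1) : IsConvexBody (body e) := by
  refine ⟨?_, ?_, ?_⟩
  · intro x hx y hy a b ha hb hab v
    rw [inner_add_left, inner_smul_left, inner_smul_left]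
    simp only [RCLike.conj_to_real]
    have h1 := mul_le_mul_of_nonneg_left (hx v) ha
    have h2 := mul_le_mul_of_nonneg_left (hy v) hb
    have h3 : a * hfun e v + b * hfun e v = hfun e v := by rw [← add_mul, hab, one_mul]
    linarith
  · have : ProperSpace E := FiniteDimensional.proper_real E
    apply Metric.isCompact_of_isClosed_isBounded
    · have : body e = ⋂ v, {x | ⟪x, v⟫ ≤ hfun e v} := by
        ext x; simp [body]
      rw [this]
      apply isClosed_iInter
      intro v
      exact isClosed_le (by fun_prop) continuous_const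
    · apply (Metric.isBounded_closedBall (x := (0 : E)) (r := 9 / 8)).subset
      intro x hx
      rw [mem_closedBall_zero_iff]
      have h1 := hx x
      rw [real_inner_self_eq_norm_sq] at h1
      have h2 := hfun_le e x he
      by_contra hlt
      push Not at hlt
      have : 0 < ‖x‖ := by linarith
      nlinarith
  · refine ⟨0, ?_⟩
    rw [mem_interior_iff_mem_nhds]
    apply Filter.mem_of_superset (Metric.closedBall_mem_nhds (0 : E) (by norm_num : (0:ℝ) < 7 / 8))
    intro x hx v
    rw [mem_closedBall_zero_iff] at hx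
    calc ⟪x, v⟫ ≤ ‖x‖ * ‖v‖ := real_inner_le_norm x v
      _ ≤ (7 / 8) * ‖v‖ := mul_le_mul_of_nonneg_right hx (norm_nonneg _)
      _ ≤ hfun e v := hfun_ge e v he

omit [FiniteDimensional ℝ E] in
/-- the support function of a ball equal to the body -/
theorem ball_support (e c : E) (r : ℝ) (he : ‖e‖ = 1) (h : body e = closedBall c r) (v : E)
    (hv : ‖v‖ = 1) : hfun e v = ⟪c, v⟫ + r := by
  have hr : 0 ≤ r := by
    have : touch e v ∈ closedBall c r := h ▸ touch_mem e v he hv
    exact le_trans dist_nonneg (mem_closedBall.mp this)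
  apply le_antisymm
  · have h1 : touch e v ∈ closedBall c r := h ▸ touch_mem e v he hv
    rw [mem_closedBall_iff_norm] at h1
    have h2 := real_inner_le_norm (touch e v - c) v
    rw [inner_sub_left, touch_inner_self e v hv, hv, mul_one] at h2
    linarith
  · have h1 : c + r • v ∈ body e := by
      rw [h, mem_closedBall_iff_norm]
      rw [add_sub_cancel_left, norm_smul, hv, mul_one, Real.norm_of_nonneg hr]
    have h2 := h1 v
    rw [inner_add_left, inner_smul_left, real_inner_self_eq_norm_sq, hv] at h2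
    simp only [RCLike.conj_to_real] at h2
    linarith

omit [FiniteDimensional ℝ E] in
theorem body_not_ball (e f : E) (he : ‖e‖ = 1) (hf : ‖f‖ = 1) (hef : ⟪e, f⟫ = 0) :
    ¬ ∃ (c : E) (r : ℝ), body e = closedBall c r := by
  rintro ⟨c, r, h⟩
  have hee : ⟪e, e⟫ = 1 := by rw [real_inner_self_eq_norm_sq, he]; norm_num
  have h1 := ball_support e c r he h e he
  have h2 := ball_support e c r he h (-e) (by rw [norm_neg, he])
  have h3 := ball_support e c r he h f hf
  have hn : ‖(3 / 5 : ℝ) • f + (4 / 5 : ℝ) • e‖ = 1 := by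
    have : ‖(3 / 5 : ℝ) • f + (4 / 5 : ℝ) • e‖ ^ 2 = 1 := by
      rw [norm_add_sq_real, norm_smul, norm_smul, inner_smul_left, inner_smul_right,
        real_inner_comm, hef, he, hf, mul_pow, mul_pow, Real.norm_eq_abs, Real.norm_eq_abs,
        sq_abs, sq_abs]
      norm_num
    have h0 := norm_nonneg ((3 / 5 : ℝ) • f + (4 / 5 : ℝ) • e)
    nlinarith
  have h4 := ball_support e c r he h _ hn
  unfold hfun at h1 h2 h3 h4
  rw [hn, inner_add_right, inner_smul_right, inner_smul_right, inner_add_right, inner_smul_right,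
    inner_smul_right, hef, hee] at h4
  rw [he, hee] at h1
  rw [norm_neg, he, inner_neg_right, inner_neg_right, hee] at h2
  rw [hf, hef] at h3
  norm_num at h1 h2 h3 h4
  linarith

end Body

section Projection

variable {E : Type*} [NormedAddCommGroup E] [InnerProductSpace ℝ E] [FiniteDimensional ℝ E]

/-- the projection of the body is the body with the restricted support function -/
theorem proj_body (e : E) (he : ‖e‖ = 1) (u : E) :
    proj (body e) u = {y : (hyperplane u) | ∀ w : (hyperplane u), ⟪y, w⟫ ≤ hfun e (w : E)} := by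
  have : CompleteSpace E := FiniteDimensional.complete ℝ E
  ext y
  constructor
  · rintro ⟨x, hx, rfl⟩ w
    have h1 := hx (w : E)
    have h2 : ⟪(hyperplane u).orthogonalProjectionOnto x, w⟫ = ⟪x, (w : E)⟫ := by
      rw [Submodule.inner_orthogonalProjectionOnto_eq_of_mem_right]
    change ⟪(hyperplane u).orthogonalProjectionOnto x, w⟫ ≤ _
    rw [h2]
    exact h1
  · intro hy
    let f : E →ₗ.[ℝ] ℝ := ⟨(hyperplane u), (innerₛₗ ℝ y : (hyperplane u) →ₗ[ℝ] ℝ)⟩
    obtain ⟨g, hg1, hg2⟩ := exists_extension_of_le_sublinear f (hfun e)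
      (fun c hc x => hfun_smul e c hc x) (hfun_add e he) (fun x => hy x)
    let g' : E →L[ℝ] ℝ := LinearMap.toContinuousLinearMap g
    let x : E := (InnerProductSpace.toDual ℝ E).symm g'
    have hx : ∀ v, ⟪x, v⟫ = g v := fun v => by
      simp only [x, InnerProductSpace.toDual_symm_apply]
      rfl
    refine ⟨x, fun v => ?_, ?_⟩
    · rw [hx]; exact hg2 v
    · apply ext_inner_right ℝ
      intro w
      have h2 : ⟪(hyperplane u).orthogonalProjectionOnto x, w⟫ = ⟪x, (w : E)⟫ := by
        rw [Submodule.inner_orthogonalProjectionOnto_eq_of_mem_right]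
      change ⟪(hyperplane u).orthogonalProjectionOnto x, w⟫ = _
      rw [h2, hx]
      exact hg1 w

end Projection

section Final

variable {E : Type*} [NormedAddCommGroup E] [InnerProductSpace ℝ E] [FiniteDimensional ℝ E]

/-- the projected direction -/
noncomputable def adir (e u : E) : (hyperplane u) := (hyperplane u).orthogonalProjectionOnto e

/-- translation vector of the projection -/
noncomputable def tvec (e u : E) : (hyperplane u) := ((3 / 32) * ‖adir e u‖ ^ 2 : ℝ) • adir e u

/-- the centred projection -/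
def cent (e u : E) : Set (hyperplane u) :=
  {y | ∀ w : (hyperplane u), ⟪y, w⟫ ≤ hfun e (w : E) - ⟪tvec e u, w⟫}

theorem proj_eq_translate (e : E) (he : ‖e‖ = 1) (u : E) :
    proj (body e) u = (fun x => x + tvec e u) '' cent e u := by
  rw [proj_body e he u]
  ext y
  constructor
  · intro hy
    refine ⟨y - tvec e u, fun w => ?_, by simp⟩
    rw [inner_sub_left]
    have := hy w
    linarith
  · rintro ⟨x, hx, rfl⟩ w
    have := hx w
    rw [inner_add_left]
    linarith

theorem centred_support_rho (e u : E) [Fact (Module.finrank ℝ (hyperplane u) = 2)]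
    (o : Orientation ℝ (hyperplane u) (Fin 2)) (w : (hyperplane u)) :
    hfun e (rho o w : E) - ⟪tvec e u, rho o w⟫ = hfun e (w : E) - ⟪tvec e u, w⟫ := by
  have hin : ∀ w : (hyperplane u), ⟪e, (w : E)⟫ = ⟪adir e u, w⟫ := by
    intro w
    unfold adir
    rw [Submodule.inner_orthogonalProjectionOnto_eq_of_mem_right]
  set a := adir e u with ha
  unfold hfun
  rw [hin, hin]
  unfold tvec
  rw [inner_smul_left, inner_smul_left, ← ha]
  simp only [RCLike.conj_to_real]
  have hn : ‖((rho o w : (hyperplane u)) : E)‖ = ‖(w : E)‖ := (rho o).norm_map w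
  rw [hn]
  have hr : ⟪a, rho o w⟫ = -(1 / 2) * ⟪a, w⟫ + (Real.sqrt 3 / 2) * ⟪a, o.rightAngleRotation w⟫ := by
    rw [rho_apply, inner_add_right, inner_smul_right, inner_smul_right]
  have hpq : ⟪a, w⟫ ^ 2 + ⟪a, o.rightAngleRotation w⟫ ^ 2 = ‖a‖ ^ 2 * ‖w‖ ^ 2 := by
    have := o.inner_sq_add_areaForm_sq a w
    rw [Orientation.inner_rightAngleRotation_right, neg_sq]
    exact this
  set p := ⟪a, w⟫ with hp
  set q := ⟪a, o.rightAngleRotation w⟫ with hq
  rw [hr]
  by_cases hw : ‖(w : E)‖ = 0
  · have hw0 : w = 0 := by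
      rw [norm_eq_zero] at hw
      exact_mod_cast hw
    have hp0 : p = 0 := by rw [hp, hw0, inner_zero_right]
    have hq0 : q = 0 := by rw [hq, hw0, map_zero, inner_zero_right]
    rw [hp0, hq0]
    simp
  · have hwn : ‖w‖ = ‖(w : E)‖ := rfl
    rw [hwn] at hpq
    have h3 := sqrt3_sq
    set s := Real.sqrt 3 with hs
    have hs2 : s ^ 2 = 3 := by rw [sq]; exact h3
    have hs3 : s ^ 3 = 3 * s := by rw [pow_succ, hs2]
    have hA : ‖a‖ ^ 2 = (p ^ 2 + q ^ 2) / ‖(w : E)‖ ^ 2 := by
      rw [hpq]; field_simp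
    rw [hA]
    field_simp
    ring_nf
    rw [hs3, hs2]
    ring

theorem rho_image_cent (e u : E) [Fact (Module.finrank ℝ (hyperplane u) = 2)]
    (o : Orientation ℝ (hyperplane u) (Fin 2)) : (rho o) '' cent e u = cent e u := by
  have h1 : ∀ y, y ∈ cent e u ↔ rho o y ∈ cent e u := by
    intro y
    constructor
    · intro hy w
      obtain ⟨w', rfl⟩ := (rho o).surjective w
      rw [LinearIsometryEquiv.inner_map_map, centred_support_rho]
      exact hy w'
    · intro hy w
      have := hy (rho o w)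
      rwa [LinearIsometryEquiv.inner_map_map, centred_support_rho] at this
  ext y
  constructor
  · rintro ⟨x, hx, rfl⟩
    exact (h1 x).mp hx
  · intro hy
    obtain ⟨x, rfl⟩ := (rho o).surjective y
    exact ⟨x, (h1 x).mpr hy, rfl⟩

end Final

section ConvexBodies

variable {E : Type*} [NormedAddCommGroup E] [InnerProductSpace ℝ E]

theorem convexBody_translate (K : Set E) (hK : IsConvexBody K) (v : E) :
    IsConvexBody ((fun x => x + v) '' K) := by
  obtain ⟨h1, h2, h3⟩ := hK
  refine ⟨?_, h2.image (by fun_prop), ?_⟩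
  · rintro _ ⟨x, hx, rfl⟩ _ ⟨y, hy, rfl⟩ a b ha hb hab
    refine ⟨a • x + b • y, h1 hx hy ha hb hab, ?_⟩
    have : v = (a + b) • v := by rw [hab, one_smul]
    simp only [smul_add]
    nth_rewrite 1 [this]
    rw [add_smul]
    abel
  · have : (fun x => x + v) '' interior K ⊆ interior ((fun x => x + v) '' K) := by
      apply interior_maximal
      · exact Set.image_mono interior_subset
      · exact (Homeomorph.addRight v).isOpenMap _ isOpen_interior
    exact (h3.image _).mono this

theorem convexBody_proj [FiniteDimensional ℝ E] (K : Set E) (hK : IsConvexBody K) (u : E) :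
    IsConvexBody (proj K u) := by
  have : CompleteSpace E := FiniteDimensional.complete ℝ E
  obtain ⟨h1, h2, h3⟩ := hK
  refine ⟨?_, h2.image (by fun_prop), ?_⟩
  · exact h1.linear_image ((hyperplane u).orthogonalProjectionOnto).toLinearMap
  · have hs : Function.Surjective ((hyperplane u).orthogonalProjectionOnto) := by
      intro y
      exact ⟨y, by simp⟩
    have : (fun x => (hyperplane u).orthogonalProjectionOnto x) '' interior K ⊆
        interior (proj K u) := by
      apply interior_maximal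
      · exact Set.image_mono interior_subset
      · exact ContinuousLinearMap.isOpenMap _ hs _ isOpen_interior
    exact (h3.image _).mono this

theorem convexBody_cent [FiniteDimensional ℝ E] (e : E) (he : ‖e‖ = 1) (u : E) :
    IsConvexBody (cent e u) := by
  have h1 := convexBody_translate _ (convexBody_proj _ (body_convexBody e he) u) (-tvec e u)
  rw [proj_eq_translate e he u, ← Set.image_comp] at h1
  have h2 : ((fun x => x + -tvec e u) ∘ fun x => x + tvec e u) = id := by
    funext x; simp
  rwa [h2, Set.image_id] at h1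

end ConvexBodies

/-- **Answer to Q1 (negative).** There is a convex body `K` in three-dimensional Euclidean space
which is not a Euclidean ball and all of whose orthogonal projections onto hyperplanes `uᗮ` are
translates of completely symmetric subsets `A` (which are themselves convex bodies) of `uᗮ`. -/
theorem result : ∃ K : Set (EuclideanSpace ℝ (Fin 3)),
    IsConvexBody K ∧ ¬ IsBall K ∧ AllProjectionsCS K := by
  set e : EuclideanSpace ℝ (Fin 3) := EuclideanSpace.single 0 1 with he'
  set f : EuclideanSpace ℝ (Fin 3) := EuclideanSpace.single 1 1 with hf'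
  have he : ‖e‖ = 1 := by simp [he']
  have hf : ‖f‖ = 1 := by simp [hf']
  have hef : ⟪e, f⟫ = 0 := by
    rw [he', hf', EuclideanSpace.inner_single_left]
    simp
  refine ⟨body e, body_convexBody e he, body_not_ball e f he hf hef, ?_⟩
  intro u hu
  have hu0 : u ≠ 0 := by
    intro h; rw [h, norm_zero] at hu; norm_num at hu
  have : Fact (Module.finrank ℝ (EuclideanSpace ℝ (Fin 3)) = 2 + 1) := ⟨by simp⟩
  have : Fact (Module.finrank ℝ (hyperplane u) = 2) := ⟨Submodule.finrank_orthogonal_span_singleton hu0⟩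
  let o : Orientation ℝ (hyperplane u) (Fin 2) :=
    ((stdOrthonormalBasis ℝ (hyperplane u)).toBasis.reindex
      (finCongr (Fact.out : Module.finrank ℝ (hyperplane u) = 2))).orientation
  exact ⟨cent e u, tvec e u, convexBody_cent e he u,
    completelySymmetric_of_rho o _ (rho_image_cent e u o), proj_eq_translate e he u⟩

end Pool.Agent.Results.MP_093203_gt.NotBall
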